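import Pool.Agent.Lib.MP_293bbf_nt.A2

/-!
# MP_b8808f_nt: Q1 and Q2 need many good indices

`Works G n`: some prime `p < n` has `G (π (n - p))`.  Such an `n` is the sum of a prime and of some
`u` with `G (π u)`, so there are at most `π N * #{u ≤ N : G (π u)}` of them up to `N`.
-/

set_option autoImplicit false

open Finset

namespace MPb8808fH70

/-- Some prime `p < n` has `G m` for `m = π (n - p)`. -/
def Works (G : ℕ → Prop) (n : ℕ) : Prop :=
  ∃ p : ℕ, p.Prime ∧ p < n ∧ G (Nat.primeCounting (n - p))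

/-- The number of the `n ≤ N` with `Works G n`. -/
noncomputable def count (G : ℕ → Prop) (N : ℕ) : ℕ := {n : ℕ | n ≤ N ∧ Works G n}.ncard

/-- The number of the `u ≤ N` for which `G (π u)` holds. -/
noncomputable def cover (G : ℕ → Prop) (N : ℕ) : ℕ :=
  {u : ℕ | u ≤ N ∧ G (Nat.primeCounting u)}.ncard

theorem card_primes (N : ℕ) : ((range (N + 1)).filter Nat.Prime).card = Nat.primeCounting N := by
  rw [Nat.primeCounting, Nat.primeCounting', Nat.count_eq_card_filter_range]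

theorem count_le (G : ℕ → Prop) (N : ℕ) : count G N ≤ Nat.primeCounting N * cover G N := by
  classical
  set U : Finset ℕ := (range (N + 1)).filter fun u => G (Nat.primeCounting u) with hU
  have hUc : cover G N = U.card := by
    have h : {u : ℕ | u ≤ N ∧ G (Nat.primeCounting u)} = (U : Set ℕ) := by
      ext u
      rw [Set.mem_ofPred_eq, mem_coe, hU, mem_filter, mem_range, Nat.lt_succ_iff]
    rw [cover, h, Set.ncard_coe_finset]
  set P : Finset ℕ := (range (N + 1)).filter Nat.Prime with hP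
  have hsub : {n : ℕ | n ≤ N ∧ Works G n} ⊆
      (((P ×ˢ U).image fun x : ℕ × ℕ => x.1 + x.2 : Finset ℕ) : Set ℕ) := by
    rintro n ⟨hn, p, hp, hpn, hG⟩
    rw [mem_coe, mem_image]
    refine ⟨(p, n - p), ?_, by simp only; omega⟩
    rw [mem_product, hP, hU, mem_filter, mem_filter, mem_range, mem_range]
    exact ⟨⟨by simp only; omega, hp⟩, by simp only; omega, hG⟩
  have h1 := Set.ncard_le_ncard hsub (finite_toSet _)
  rw [Set.ncard_coe_finset] at h1
  have h2 : ((P ×ˢ U).image fun x : ℕ × ℕ => x.1 + x.2).card ≤ (P ×ˢ U).card := card_image_le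
  rw [card_product, card_primes, ← hUc] at h2
  exact h1.trans h2

theorem cover_bounded {G : ℕ → Prop} (h : {m : ℕ | G m}.Finite) : ∃ K : ℕ, ∀ N, cover G N ≤ K := by
  have h1 : {u : ℕ | G (Nat.primeCounting u)}.Finite := by
    obtain ⟨M, hM⟩ := h.bddAbove
    obtain ⟨Z, hZ⟩ := Filter.eventually_atTop.mp
      (Nat.tendsto_primeCounting.eventually (Filter.eventually_gt_atTop M))
    refine (Set.finite_Iio Z).subset fun u hu => ?_
    rw [Set.mem_Iio]
    by_contra hc
    have h2 := hZ u (not_lt.mp hc)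
    have h3 : Nat.primeCounting u ≤ M := hM hu
    omega
  refine ⟨{u : ℕ | G (Nat.primeCounting u)}.ncard, fun N => ?_⟩
  exact Set.ncard_le_ncard (fun u hu => hu.2) h1

theorem finite_case {G : ℕ → Prop} (h : {m : ℕ | G m}.Finite) :
    ∃ C : ℝ, ∃ N₀ : ℕ, ∀ N : ℕ, N₀ ≤ N → (count G N : ℝ) ≤ C * (N / Real.log N) := by
  obtain ⟨K, hK⟩ := cover_bounded h
  obtain ⟨X1, hX1⟩ := MP293bbf.pnt_upper_lower
  refine ⟨2 * K, ⌈X1⌉₊, fun N hN => ?_⟩
  have h1 : X1 ≤ (N : ℝ) := (Nat.le_ceil X1).trans (by exact_mod_cast hN)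
  have h2 := (hX1 N h1).2
  rw [Nat.floor_natCast] at h2
  have h3 : (count G N : ℝ) ≤ Nat.primeCounting N * K := by
    exact_mod_cast (count_le G N).trans (Nat.mul_le_mul_left _ (hK N))
  calc (count G N : ℝ) ≤ Nat.primeCounting N * K := h3
    _ ≤ 2 * (N / Real.log N) * K := mul_le_mul_of_nonneg_right h2 (Nat.cast_nonneg _)
    _ = 2 * K * (N / Real.log N) := by ring

theorem infinite_of_proportion {G : ℕ → Prop} {δ : ℝ} (hδ : 0 < δ)
    (h : ∀ N₀ : ℕ, ∃ N : ℕ, N₀ ≤ N ∧ δ * N ≤ count G N) : {m : ℕ | G m}.Infinite := by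
  intro hfin
  obtain ⟨C, N₀, hC⟩ := finite_case hfin
  set C' : ℝ := max C 1 with hC'
  have hC1 : 0 < C' := lt_of_lt_of_le one_pos (le_max_right _ _)
  obtain ⟨N, hN, hd⟩ := h (max (max N₀ 2) (⌈Real.exp (2 * C' / δ)⌉₊ + 1))
  have hN0 : N₀ ≤ N := ((le_max_left _ _).trans (le_max_left _ _)).trans hN
  have hN2 : 2 ≤ N := ((le_max_right _ _).trans (le_max_left _ _)).trans hN
  have hNe : ⌈Real.exp (2 * C' / δ)⌉₊ + 1 ≤ N := (le_max_right _ _).trans hN
  have hNr : (2 : ℝ) ≤ N := by exact_mod_cast hN2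
  have he : Real.exp (2 * C' / δ) ≤ (N : ℝ) :=
    (Nat.le_ceil _).trans (by exact_mod_cast (Nat.le_succ _).trans hNe)
  have hl : 2 * C' / δ ≤ Real.log N := by
    rw [Real.le_log_iff_exp_le (by linarith)]; exact he
  have hlpos : 0 < Real.log N := lt_of_lt_of_le (by positivity) hl
  have h1 := hd.trans (hC N hN0)
  have h2 : C * (N / Real.log N) ≤ C' * (N / Real.log N) :=
    mul_le_mul_of_nonneg_right (le_max_left _ _) (by positivity)
  have h3 : δ * N ≤ C' * (N / Real.log N) := h1.trans h2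
  rw [mul_div_assoc', le_div_iff₀ hlpos] at h3
  rw [div_le_iff₀ hδ] at hl
  have hN' : (0 : ℝ) < N := by linarith
  nlinarith

theorem cover_of_all {G : ℕ → Prop} {n₀ : ℕ} (h : ∀ n : ℕ, n₀ < n → Works G n) :
    ∃ N₀ : ℕ, ∀ N : ℕ, N₀ ≤ N → Real.log N / 4 ≤ cover G N := by
  classical
  obtain ⟨X1, hX1⟩ := MP293bbf.pnt_upper_lower
  refine ⟨max (max ⌈X1⌉₊ 2) (2 * n₀), fun N hN => ?_⟩
  have hNa : ⌈X1⌉₊ ≤ N := ((le_max_left _ _).trans (le_max_left _ _)).trans hN
  have hN2 : 2 ≤ N := ((le_max_right _ _).trans (le_max_left _ _)).trans hN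
  have hNb : 2 * n₀ ≤ N := (le_max_right _ _).trans hN
  have h1 : X1 ≤ (N : ℝ) := (Nat.le_ceil X1).trans (by exact_mod_cast hNa)
  have h2 := (hX1 N h1).2
  rw [Nat.floor_natCast] at h2
  have hNr : (2 : ℝ) ≤ N := by exact_mod_cast hN2
  have hlpos : 0 < Real.log N := Real.log_pos (by linarith)
  have h3 : N ≤ count G N + n₀ := by
    have hsub : (((Finset.Icc (n₀ + 1) N : Finset ℕ)) : Set ℕ) ⊆ {n : ℕ | n ≤ N ∧ Works G n} := by
      intro n hn
      rw [mem_coe, mem_Icc] at hn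
      exact ⟨hn.2, h n (by omega)⟩
    have h4 := Set.ncard_le_ncard hsub ((Set.finite_Iic N).subset fun n hn => hn.1)
    rw [Set.ncard_coe_finset, Nat.card_Icc] at h4
    have h5 : N + 1 - (n₀ + 1) ≤ count G N := h4
    omega
  have h4 := count_le G N
  have h5 : (N : ℝ) ≤ Nat.primeCounting N * cover G N + n₀ := by
    exact_mod_cast h3.trans (Nat.add_le_add_right h4 _)
  have h6 : (2 : ℝ) * n₀ ≤ N := by exact_mod_cast hNb
  have h7 : (0 : ℝ) ≤ cover G N := Nat.cast_nonneg _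
  have h8 : (Nat.primeCounting N : ℝ) * cover G N ≤ 2 * (N / Real.log N) * cover G N :=
    mul_le_mul_of_nonneg_right h2 h7
  have h9 : (N : ℝ) / 2 ≤ 2 * (N / Real.log N) * cover G N := by linarith
  rw [show 2 * ((N : ℝ) / Real.log N) * cover G N = (2 * N * cover G N) / Real.log N by ring,
    le_div_iff₀ hlpos] at h9
  have hN' : (0 : ℝ) < N := by linarith
  have h10 : (N : ℝ) * (Real.log N / 4) ≤ N * cover G N := by nlinarith
  exact le_of_mul_le_mul_left h10 hN'

end MPb8808fH70
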